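import Pool.Agent.URW.Q.Run

/-!
# URW Hol/Ball (package, 1.5 h): balls for the word metric, sparse sets, runs are geodesic

PROOFS. `walk nb v (l ++ l') = walk nb (walk nb v l) l'` (`List.foldl_append`); by `Invol`
`walk nb (walk nb v l) l.reverse = v`. `ball_card`: `ball (q + 1) v` is contained in the union of `ball q v` and of
the images of `ball q v` under `nb · i` (split off the last letter), so its size is at most `(8 m + 2)` times the
size of `ball q v`.
`ball_lower`: the ends of the initial segments of a nice word of length `q ≤ n` (alternating labels `0`, `m`) are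
distinct by `Uniq` (as in `uniq_card`).
`sparse_card`: with `h = q / 2` the balls `ball h v`, `v ∈ H`, are pairwise disjoint (a common point gives a walk of
length `≤ 2 h ≤ q` from `v` to `v'`) and have at least `h + 1` elements (`ball_lower`), so
`#H (h + 1) ≤ #V`, and `q ≤ 2 (h + 1)`.
`run_far`: positions `i < j` of a run of length `≤ n`: a walk from the vertex at `i` to the one at `j` has length
`≥ j - i` (`GeoW`, `stp_walk`), so their balls of radius `q` are disjoint if `2 q < j - i`.
-/

set_option autoImplicit false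

open Finset

namespace URW

variable {m : ℕ} {V : Type}

theorem walk_append (nb : V → Lab m → V) (v : V) (l l' : List (Lab m)) :
    walk nb v (l ++ l') = walk nb (walk nb v l) l' := List.foldl_append

private theorem walk_cons (nb : V → Lab m → V) (v : V) (i : Lab m) (l : List (Lab m)) :
    walk nb v (i :: l) = walk nb (nb v i) l := rfl

private theorem walk_single (nb : V → Lab m → V) (v : V) (i : Lab m) :
    walk nb v [i] = nb v i := rfl

private theorem walk_nil (nb : V → Lab m → V) (v : V) : walk nb v [] = v := rfl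

theorem walk_reverse {nb : V → Lab m → V} (hI : Invol nb) (v : V) (l : List (Lab m)) :
    walk nb (walk nb v l) l.reverse = v := by
  induction l generalizing v with
  | nil => rfl
  | cons i l ih =>
    rw [walk_cons, List.reverse_cons, walk_append, ih, walk_single, hI]

variable [Fintype V] [DecidableEq V]

open Classical in
/-- The ball of radius `q`. -/
noncomputable def ball (nb : V → Lab m → V) (q : ℕ) (v : V) : Finset V :=
  univ.filter fun u => ∃ l : List (Lab m), l.length ≤ q ∧ walk nb v l = u

theorem mem_ball (nb : V → Lab m → V) (q : ℕ) (v u : V) :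
    u ∈ ball nb q v ↔ ∃ l : List (Lab m), l.length ≤ q ∧ walk nb v l = u := by
  classical
  unfold ball
  rw [mem_filter]
  exact ⟨fun h => h.2, fun h => ⟨mem_univ _, h⟩⟩

theorem self_mem_ball (nb : V → Lab m → V) (q : ℕ) (v : V) : v ∈ ball nb q v :=
  (mem_ball nb q v v).2 ⟨[], Nat.zero_le _, rfl⟩

theorem ball_symm {nb : V → Lab m → V} (hI : Invol nb) {q : ℕ} {v u : V}
    (h : u ∈ ball nb q v) : v ∈ ball nb q u := by
  obtain ⟨l, hl, rfl⟩ := (mem_ball nb q v u).1 h
  exact (mem_ball nb q _ v).2 ⟨l.reverse, by rwa [List.length_reverse], walk_reverse hI v l⟩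

theorem ball_trans (nb : V → Lab m → V) {q q' : ℕ} {v u w : V}
    (h : u ∈ ball nb q v) (h' : w ∈ ball nb q' u) : w ∈ ball nb (q + q') v := by
  obtain ⟨l, hl, rfl⟩ := (mem_ball nb q v u).1 h
  obtain ⟨l', hl', rfl⟩ := (mem_ball nb q' _ w).1 h'
  refine (mem_ball nb (q + q') v _).2 ⟨l ++ l', ?_, walk_append nb v l l'⟩
  rw [List.length_append]
  omega

theorem ball_card (nb : V → Lab m → V) (q : ℕ) (v : V) :
    (ball nb q v).card ≤ (8 * m + 2) ^ q := by
  induction q with
  | zero =>
    rw [pow_zero, card_le_one]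
    intro a ha b hb
    obtain ⟨l, hl, rfl⟩ := (mem_ball nb 0 v a).1 ha
    obtain ⟨l', hl', rfl⟩ := (mem_ball nb 0 v b).1 hb
    rw [List.length_eq_zero_iff.1 (Nat.le_zero.1 hl), List.length_eq_zero_iff.1 (Nat.le_zero.1 hl')]
  | succ q ih =>
    have hsub : ball nb (q + 1) v ⊆ ball nb q v ∪
        (univ : Finset (Lab m)).biUnion fun i => (ball nb q v).image fun u => nb u i := by
      intro u hu
      obtain ⟨l, hl, rfl⟩ := (mem_ball nb (q + 1) v u).1 hu
      rw [mem_union]
      by_cases h : l.length ≤ q
      · exact Or.inl ((mem_ball nb q v _).2 ⟨l, h, rfl⟩)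
      · right
        rcases List.eq_nil_or_concat l with rfl | ⟨l', i, rfl⟩
        · exact absurd (Nat.zero_le q) h
        · rw [mem_biUnion]
          refine ⟨i, mem_univ _, mem_image.2 ⟨walk nb v l', (mem_ball nb q v _).2
            ⟨l', ?_, rfl⟩, ?_⟩⟩
          · rw [List.concat_eq_append, List.length_append, List.length_singleton] at hl
            omega
          · rw [List.concat_eq_append, walk_append]
            rfl
    have h1 : ((univ : Finset (Lab m)).biUnion
        fun i => (ball nb q v).image fun u => nb u i).card ≤ (8 * m + 1) * (ball nb q v).card := by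
      refine (card_biUnion_le_card_mul _ _ _ fun i _ => card_image_le).trans (le_of_eq ?_)
      rw [card_univ, ZMod.card]
    calc (ball nb (q + 1) v).card
        ≤ (ball nb q v).card + (8 * m + 1) * (ball nb q v).card :=
          (card_le_card hsub).trans ((card_union_le _ _).trans (Nat.add_le_add_left h1 _))
      _ = (8 * m + 2) * (ball nb q v).card := by ring
      _ ≤ (8 * m + 2) * (8 * m + 2) ^ q := Nat.mul_le_mul_left _ ih
      _ = (8 * m + 2) ^ (q + 1) := (pow_succ' _ _).symm

/-- the alternating labels -/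
private def altL' (m : ℕ) (k : ℕ) : Lab m := if k % 2 = 0 then 0 else ((m : ℕ) : Lab m)

/-- the alternating words -/
private def altW' (m : ℕ) : ℕ → List (Lab m)
  | 0 => []
  | k + 1 => altL' m k :: altW' m k

private theorem altW_length' (k : ℕ) : (altW' m k).length = k := by
  induction k with
  | zero => rfl
  | succ k ih => rw [altW', List.length_cons, ih]

private theorem altW_nice' (hm : 3 ≤ m) (k : ℕ) : NiceW (altW' m k) := by
  have hc : cd ((m : ℕ) : Lab m) = m := by
    have := cd_intCast (m := m) (m : ℤ) (by rw [Int.natAbs_natCast]; omega)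
    rw [Int.cast_natCast, Int.natAbs_natCast] at this
    exact this
  induction k with
  | zero => exact List.isChain_nil
  | succ k ih =>
    refine List.isChain_cons.2 ⟨fun y hy => ?_, ih⟩
    cases k with
    | zero => simp [altW'] at hy
    | succ k =>
      rw [altW', List.head?_cons, Option.mem_some_iff] at hy
      rw [← hy]
      unfold altL'
      rcases Nat.mod_two_eq_zero_or_one k with h | h
      · have h' : ¬ (k + 1) % 2 = 0 := by omega
        rw [if_neg h', if_pos h, sub_zero, hc]
        exact hm
      · have h' : (k + 1) % 2 = 0 := by omega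
        have h'' : ¬ k % 2 = 0 := by omega
        rw [if_pos h', if_neg h'', zero_sub, cd_neg, hc]
        exact hm

theorem ball_lower (hm : 3 ≤ m) {nb : V → Lab m → V} {n : ℕ} (hU : Uniq nb n) {q : ℕ}
    (hq : q ≤ n) (v : V) : q + 1 ≤ (ball nb q v).card := by
  have hinj : Function.Injective fun k : Fin (q + 1) => walk nb v (altW' m k) := by
    intro k k' h
    have h1 := hU v _ _ (altW_nice' hm k) (altW_nice' hm k')
      (by rw [altW_length']; have := k.2; omega) (by rw [altW_length']; have := k'.2; omega) h
    have h2 := congrArg List.length h1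
    rw [altW_length', altW_length'] at h2
    exact Fin.ext h2
  have h1 : (univ.image fun k : Fin (q + 1) => walk nb v (altW' m k)) ⊆ ball nb q v := by
    intro u hu
    obtain ⟨k, -, rfl⟩ := mem_image.1 hu
    refine (mem_ball nb q v _).2 ⟨altW' m k, ?_, rfl⟩
    rw [altW_length']
    have := k.2
    omega
  have h2 := card_le_card h1
  rw [card_image_of_injective _ hinj, card_univ, Fintype.card_fin] at h2
  exact h2

theorem sparse_card (hm : 3 ≤ m) {nb : V → Lab m → V} (hI : Invol nb) {n : ℕ}
    (hU : Uniq nb n) {q : ℕ} (hq : q ≤ n) {H : Finset V} (hH : Sparse nb q H) :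
    q * H.card ≤ 2 * Fintype.card V := by
  have hdis : (H : Set V).PairwiseDisjoint fun v => ball nb (q / 2) v := by
    intro v hv v' hv' hne
    change Disjoint (ball nb (q / 2) v) (ball nb (q / 2) v')
    rw [disjoint_left]
    intro u hu hu'
    apply hne
    have h1 := ball_trans nb hu (ball_symm hI hu')
    obtain ⟨l, hl, hl'⟩ := (mem_ball nb _ v v').1 h1
    have h2 := hH v hv l (by omega) (by rw [hl']; exact hv')
    rw [hl'] at h2
    exact h2.symm
  have h1 : H.card * (q / 2 + 1) ≤ Fintype.card V := by
    calc H.card * (q / 2 + 1) = ∑ _v ∈ H, (q / 2 + 1) := by rw [sum_const, smul_eq_mul]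
      _ ≤ ∑ v ∈ H, (ball nb (q / 2) v).card :=
        sum_le_sum fun v _ => ball_lower hm hU (by omega) v
      _ = (H.biUnion fun v => ball nb (q / 2) v).card := (card_biUnion hdis).symm
      _ ≤ Fintype.card V := card_le_univ _
  calc q * H.card ≤ (2 * (q / 2 + 1)) * H.card := Nat.mul_le_mul_right _ (by omega)
    _ = 2 * (H.card * (q / 2 + 1)) := by ring
    _ ≤ 2 * Fintype.card V := Nat.mul_le_mul_left _ h1

private theorem center_mem {nb : V → Lab m → V} (hI : Invol nb) {q : ℕ} {v v' : V}
    (h : ¬ Disjoint (ball nb q v) (ball nb q v')) : v' ∈ ball nb (2 * q) v := by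
  rw [not_disjoint_iff] at h
  obtain ⟨u, hu, hu'⟩ := h
  have h1 := ball_trans nb hu (ball_symm hI hu')
  rwa [← two_mul] at h1

theorem run_far (hm : 3 ≤ m) {nb : V → Lab m → V} (hI : Invol nb) {n : ℕ} (hG : GeoW nb n)
    (c : V → Rot m) (p : V × Lab m) {q i j : ℕ} (hij : i + 2 * q < j) (hj : j ≤ n) :
    Disjoint (ball nb q ((stp nb c)^[i] p).1) (ball nb q ((stp nb c)^[j] p).1) := by
  by_contra hcon
  obtain ⟨l', hl', hw'⟩ := (mem_ball nb _ _ _).1 (center_mem hI hcon)
  obtain ⟨l, h1, h2, h3, -⟩ := stp_walk hm nb c ((stp nb c)^[i] p) (j - i)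
  rw [← Function.iterate_add_apply, Nat.sub_add_cancel (by omega)] at h3
  have h4 := hG _ l l' h1 (by omega) (h3.trans hw'.symm)
  omega

/-- Few runs of length `L` come close to a given run. -/
theorem close_card {nb : V → Lab m → V} (hI : Invol nb) (c : V → Rot m) (q L : ℕ)
    (p : V × Lab m) (F : Finset (V × Lab m))
    (hF : ∀ p' ∈ F, ∃ j < L, ∃ k < L, ¬ Disjoint (ball nb q ((stp nb c)^[j] p).1)
      (ball nb q ((stp nb c)^[k] p').1)) :
    F.card ≤ L * L * ((8 * m + 2) ^ (2 * q) * (8 * m + 1)) := by
  have hsub : F ⊆ (range L ×ˢ range L).biUnion fun x => F.filter fun p' =>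
      (stp nb c)^[x.2] p' ∈ ball nb (2 * q) ((stp nb c)^[x.1] p).1 ×ˢ (univ : Finset (Lab m)) := by
    intro p' hp'
    obtain ⟨j, hj, k, hk, h⟩ := hF p' hp'
    rw [mem_biUnion]
    refine ⟨(j, k), mem_product.2 ⟨mem_range.2 hj, mem_range.2 hk⟩, mem_filter.2 ⟨hp', ?_⟩⟩
    rw [mem_product]
    exact ⟨center_mem hI h, mem_univ _⟩
  refine (card_le_card hsub).trans ((card_biUnion_le_card_mul _ _
    ((8 * m + 2) ^ (2 * q) * (8 * m + 1)) fun x _ => ?_).trans (le_of_eq ?_))
  · have h1 : (F.filter fun p' => (stp nb c)^[x.2] p' ∈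
        ball nb (2 * q) ((stp nb c)^[x.1] p).1 ×ˢ (univ : Finset (Lab m))).card ≤
        (ball nb (2 * q) ((stp nb c)^[x.1] p).1 ×ˢ (univ : Finset (Lab m))).card :=
      card_le_card_of_injOn ((stp nb c)^[x.2]) (fun p' hp' => (mem_filter.1 hp').2)
        ((stp_inj hI c).iterate x.2).injOn
    refine h1.trans ?_
    rw [card_product, card_univ, ZMod.card]
    exact Nat.mul_le_mul_right _ (ball_card nb (2 * q) _)
  · rw [card_product, card_range]

end URW
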