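import Pool.Agent.URW.Hol.Miss

/-!
# URW HOLES: sparse sets of holes which meet every long run

INTERFACE theorem of part HOLES (section 6 of `UWneg_proof.txt`); architect helper17. The local
lemma is in `Pool/Agent/SKA/LLL.lean`.
-/

set_option autoImplicit false

open Finset

namespace URW

open Pool.Agent.SKA

/-- the length of the runs -/
theorem exists_K (θ : ℝ) (h0 : 0 ≤ θ) (h1 : θ < 1) (a B : ℕ) :
    ∃ K : ℕ, 1 ≤ K ∧ 4 * (((K * a * (K * a) * B : ℕ) : ℝ)) * θ ^ K ≤ 1 := by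
  have h2 : |θ| < 1 := by
    rw [abs_of_nonneg h0]
    exact h1
  have h3 := tendsto_pow_const_mul_const_pow_of_abs_lt_one 2 h2
  obtain ⟨C, hC⟩ : ∃ C : ℝ, C = 4 * (a : ℝ) * a * B := ⟨_, rfl⟩
  have hC0 : 0 ≤ C := by rw [hC]; positivity
  have h4 : ∀ᶠ K : ℕ in Filter.atTop, (K : ℝ) ^ 2 * θ ^ K < 1 / (C + 1) :=
    h3.eventually (gt_mem_nhds (by positivity))
  obtain ⟨K, hK, hK1⟩ := (h4.and (Filter.eventually_ge_atTop 1)).exists
  refine ⟨K, hK1, ?_⟩
  have h5 : 0 ≤ (K : ℝ) ^ 2 * θ ^ K := by positivity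
  push_cast
  calc 4 * ((K : ℝ) * a * (K * a) * B) * θ ^ K = C * ((K : ℝ) ^ 2 * θ ^ K) := by rw [hC]; ring
    _ ≤ C * (1 / (C + 1)) := mul_le_mul_of_nonneg_left hK.le hC0
    _ ≤ 1 := by
        rw [mul_one_div, div_le_one (by positivity)]
        linarith

theorem holes_main (m q : ℕ) (hm : 100 ≤ m) (hq : 1 ≤ q) :
    ∃ L n : ℕ, 0 < L ∧ ∀ (V : Type) [Fintype V] [Nonempty V] (nb : V → Lab m → V), Invol nb →
      Uniq nb n → GeoW nb n → ∀ c : V → Rot m, ∃ H : Finset V, Sparse nb q H ∧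
        q * H.card ≤ 2 * Fintype.card V ∧
        ∀ d : V × Lab m, ∃ j < L, ((nxt nb c)^[j] d).1 ∈ H := by
  classical
  obtain ⟨θ, hθ⟩ : ∃ θ : ℝ, θ = 1 - (1 / 2 : ℝ) ^ ((8 * m + 2) ^ q) := ⟨_, rfl⟩
  have hθ0 : 0 ≤ θ := by
    rw [hθ]
    have : (1 / 2 : ℝ) ^ ((8 * m + 2) ^ q) ≤ 1 := pow_le_one₀ (by norm_num) (by norm_num)
    linarith
  have hθ1 : θ < 1 := by
    rw [hθ]
    have : (0 : ℝ) < (1 / 2 : ℝ) ^ ((8 * m + 2) ^ q) := by positivity
    linarith
  obtain ⟨K, hK1, hK⟩ := exists_K θ hθ0 hθ1 (2 * q + 1) ((8 * m + 2) ^ (2 * q) * (8 * m + 1))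
  obtain ⟨L, hL⟩ : ∃ L : ℕ, L = K * (2 * q + 1) := ⟨_, rfl⟩
  have hL0 : 0 < L := by rw [hL]; positivity
  obtain ⟨Δ, hΔ⟩ : ∃ Δ : ℕ, Δ = L * L * ((8 * m + 2) ^ (2 * q) * (8 * m + 1)) := ⟨_, rfl⟩
  have hΔ0 : 0 < Δ := by rw [hΔ]; positivity
  rw [← hL, ← hΔ] at hK
  have hΔr : (0 : ℝ) < (Δ : ℝ) := by exact_mod_cast hΔ0
  refine ⟨L, L + q, hL0, ?_⟩
  intro V _ _ nb hI hU hG c
  obtain ⟨x, hx⟩ : ∃ x : ℝ, x = 1 / (2 * (Δ : ℝ)) := ⟨_, rfl⟩
  have hx0 : 0 ≤ x := by rw [hx]; positivity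
  have hΔ1 : (1 : ℝ) ≤ (Δ : ℝ) := by exact_mod_cast hΔ0
  have hx1 : x < 1 := by
    rw [hx, div_lt_one (by positivity)]
    linarith
  obtain ⟨f, hf⟩ := lll (I := V) (M := 2) (J := V × Lab m) (by norm_num)
    (fun p => (range L).biUnion fun j => ball nb q ((stp nb c)^[j] p).1)
    (fun p => {f : V → Fin 2 | ∀ j ∈ range L, f ∈ {f : V → Fin 2 |
      ((stp nb c)^[j] p).1 ∉ hol nb q f}})
    (fun p => supp_biInter (range L)
      (fun j => {f : V → Fin 2 | ((stp nb c)^[j] p).1 ∉ hol nb q f})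
      (fun j => ball nb q ((stp nb c)^[j] p).1) fun j _ => supp_hol nb q _)
    (fun _ => x) (fun _ => hx0) (fun _ => hx1) (by
      intro p
      have h1 : pr {f : V → Fin 2 | ∀ j ∈ range L, f ∈ {f : V → Fin 2 |
          ((stp nb c)^[j] p).1 ∉ hol nb q f}} ≤ θ ^ K := by
        have h2 := pr_miss (by omega : 3 ≤ m) hI hG c p q K (by rw [← hL]; omega)
        rw [← hL, ← hθ] at h2
        refine le_trans (pr_mono ?_) h2
        intro f hf j hj
        exact hf j (Finset.mem_range.2 hj)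
      rw [Finset.prod_const]
      have h3 : (univ.filter fun p' : V × Lab m => p' ≠ p ∧
          ¬ Disjoint ((range L).biUnion fun j => ball nb q ((stp nb c)^[j] p).1)
            ((range L).biUnion fun j => ball nb q ((stp nb c)^[j] p').1)).card ≤ Δ := by
        rw [hΔ]
        refine close_card hI c q L p _ ?_
        intro p' hp'
        have hp2 := (Finset.mem_filter.1 hp').2.2
        by_contra hcon
        push Not at hcon
        refine hp2 ?_
        rw [Finset.disjoint_biUnion_left]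
        intro j hj
        rw [Finset.disjoint_biUnion_right]
        intro k hk
        exact hcon j (Finset.mem_range.1 hj) k (Finset.mem_range.1 hk)
      obtain ⟨e, he⟩ : ∃ e : ℕ, e = (univ.filter fun p' : V × Lab m => p' ≠ p ∧
          ¬ Disjoint ((range L).biUnion fun j => ball nb q ((stp nb c)^[j] p).1)
            ((range L).biUnion fun j => ball nb q ((stp nb c)^[j] p').1)).card := ⟨_, rfl⟩
      rw [← he] at h3
      have h4 : (1 / 2 : ℝ) ≤ (1 - x) ^ Δ := by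
        have h5 := one_add_mul_le_pow (a := -x) (by linarith) Δ
        have h6 : (Δ : ℝ) * -x = -(1 / 2) := by
          rw [hx]
          field_simp
        rw [h6] at h5
        have h7 : (1 : ℝ) + -x = 1 - x := by ring
        rw [h7] at h5
        linarith
      have h8 : (1 - x) ^ Δ ≤ (1 - x) ^ e :=
        pow_le_pow_of_le_one (by linarith) (by linarith) h3
      have h9 : θ ^ K ≤ x * (1 / 2) := by
        rw [hx, one_div, mul_one_div, div_eq_mul_inv, ← mul_inv, ← one_div,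
          le_div_iff₀ (by positivity)]
        calc θ ^ K * (2 * (Δ : ℝ) * 2) = 4 * (Δ : ℝ) * θ ^ K := by ring
          _ ≤ 1 := hK
      have h10 : x * (1 / 2) ≤ x * (1 - x) ^ e := mul_le_mul_of_nonneg_left (h4.trans h8) hx0
      have h11 := (h1.trans h9).trans h10
      rw [he] at h11
      refine le_trans h11 (le_of_eq ?_)
      congr!)
  refine ⟨hol nb q f, hol_sparse q f, ?_, ?_⟩
  · exact sparse_card (by omega) hI hU (by omega) (hol_sparse q f)
  · intro d
    obtain ⟨p, rfl⟩ := out_surj c d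
    have h1 := hf p
    simp only [Set.mem_ofPred_eq, not_forall, not_not] at h1
    obtain ⟨j, hj, h2⟩ := h1
    refine ⟨j, Finset.mem_range.1 hj, ?_⟩
    rw [nxt_iter_out]
    exact h2

end URW
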