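import Pool.Agent.URW.Hol.Ball
import Pool.Agent.SKA.LLL

/-!
# URW Hol/Miss (package, 1.5 h): a long run misses the random holes with small probability

`hol nb q f`: the `v` with `f v = 0` and `f u ≠ 0` for the other `u` of `ball nb q v`. `pr` is the uniform
probability on `V → Fin 2` (`Pool/Agent/SKA/Defs.lean`, `Prob.lean`, `Indep.lean`).

PROOFS. `supp_hol`: `v ∈ hol f` depends only on `f` on `ball nb q v`. `pr_hol`: the event `v ∈ hol f` prescribes `f` on
`b = #ball ≤ (8 m + 2)^q` vertices; it is the intersection of `b` events `f u = ε_u` of probability `1/2` with the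
disjoint supports `{u}` (or count directly), so its probability is `2^(-b)`; hence
`pr {f | v ∉ hol f} = 1 - 2^(-b) ≤ 1 - 2^(-(8m+2)^q)`.
`pr_miss`: the event is contained in the intersection over `i < K` of the events `v_i ∉ hol f`, `v_i` = vertex at the
position `i (2 q + 1)`; these have pairwise disjoint supports `ball nb q v_i` (`run_far`); induction on `K` with
`pr_inter`, `supp_biInter`.
-/

set_option autoImplicit false

open Finset

namespace URW

open Pool.Agent.SKA

variable {m : ℕ} {V : Type} [Fintype V] [DecidableEq V]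

open Classical in
/-- The random holes. -/
noncomputable def hol (nb : V → Lab m → V) (q : ℕ) (f : V → Fin 2) : Finset V :=
  univ.filter fun v => f v = 0 ∧ ∀ u ∈ ball nb q v, u ≠ v → f u ≠ 0

private theorem mem_hol (nb : V → Lab m → V) (q : ℕ) (f : V → Fin 2) (v : V) :
    v ∈ hol nb q f ↔ f v = 0 ∧ ∀ u ∈ ball nb q v, u ≠ v → f u ≠ 0 := by
  unfold hol
  rw [mem_filter]
  exact ⟨fun h => h.2, fun h => ⟨mem_univ _, h⟩⟩

theorem supp_hol (nb : V → Lab m → V) (q : ℕ) (v : V) :
    Supp {f : V → Fin 2 | v ∉ hol nb q f} (ball nb q v) := by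
  have key : ∀ f f' : V → Fin 2, (∀ e ∈ ball nb q v, f e = f' e) →
      v ∈ hol nb q f → v ∈ hol nb q f' := by
    intro f f' h h1
    rw [mem_hol] at h1 ⊢
    refine ⟨?_, fun u hu huv => ?_⟩
    · rw [← h v (self_mem_ball nb q v)]
      exact h1.1
    · rw [← h u hu]
      exact h1.2 u hu huv
  intro f f' h
  exact not_congr ⟨key f f' h, key f' f fun e he => (h e he).symm⟩

/-- The probability that `f` has given values on `S`. -/
private theorem pr_presc (S : Finset V) (ε : V → Fin 2) :
    pr {f : V → Fin 2 | ∀ u ∈ S, f u = ε u} = (1 / 2 : ℝ) ^ S.card := by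
  have h1 : {f : V → Fin 2 | ∀ u ∈ S, f u = ε u} =
      ↑(Fintype.piFinset fun u => if u ∈ S then ({ε u} : Finset (Fin 2)) else univ) := by
    ext f
    rw [mem_coe, Fintype.mem_piFinset]
    constructor
    · intro h u
      by_cases hu : u ∈ S
      · rw [if_pos hu, mem_singleton]
        exact h u hu
      · rw [if_neg hu]
        exact mem_univ _
    · intro h u hu
      have := h u
      rwa [if_pos hu, mem_singleton] at this
  have h2 : (Fintype.piFinset fun u => if u ∈ S then ({ε u} : Finset (Fin 2)) else univ).card =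
      2 ^ (Fintype.card V - S.card) := by
    rw [Fintype.card_piFinset]
    have h3 : ∀ u : V, (if u ∈ S then ({ε u} : Finset (Fin 2)) else univ).card =
        if u ∈ S then 1 else 2 := by
      intro u
      by_cases hu : u ∈ S
      · rw [if_pos hu, if_pos hu, card_singleton]
      · rw [if_neg hu, if_neg hu, card_univ, Fintype.card_fin]
    rw [prod_congr rfl fun u _ => h3 u, prod_ite, prod_const_one, one_mul, prod_const]
    congr 1
    have h4 : univ.filter (fun u => u ∉ S) = Sᶜ := by
      ext u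
      rw [mem_filter, mem_compl]
      exact ⟨fun h => h.2, fun h => ⟨mem_univ _, h⟩⟩
    rw [h4, card_compl]
  have h5 : S.card ≤ Fintype.card V := card_le_univ S
  unfold pr
  rw [h1, Set.ncard_coe_finset, h2]
  push_cast
  have h6 : (2 : ℝ) ^ Fintype.card V = 2 ^ (Fintype.card V - S.card) * 2 ^ S.card := by
    rw [← pow_add, Nat.sub_add_cancel h5]
  rw [h6, div_mul_eq_div_div, div_self (by positivity), one_div_pow]

theorem pr_hol (nb : V → Lab m → V) (q : ℕ) (v : V) :
    pr {f : V → Fin 2 | v ∉ hol nb q f} ≤ 1 - (1 / 2 : ℝ) ^ ((8 * m + 2) ^ q) := by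
  have h1 : {f : V → Fin 2 | ∀ u ∈ ball nb q v, f u = if u = v then 0 else 1} ⊆
      {f : V → Fin 2 | v ∉ hol nb q f}ᶜ := by
    intro f hf
    rw [Set.mem_compl_iff]
    intro h2
    refine h2 ((mem_hol nb q f v).2 ⟨?_, fun u hu huv => ?_⟩)
    · have := hf v (self_mem_ball nb q v)
      rwa [if_pos rfl] at this
    · have := hf u hu
      rw [if_neg huv] at this
      rw [this]
      exact one_ne_zero
  have h3 := pr_mono h1
  rw [pr_presc] at h3
  have h4 : (1 / 2 : ℝ) ^ ((8 * m + 2) ^ q) ≤ (1 / 2 : ℝ) ^ (ball nb q v).card :=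
    pow_le_pow_of_le_one (by norm_num) (by norm_num) (ball_card nb q v)
  have h5 := pr_inter_add_diff {f : V → Fin 2 | v ∉ hol nb q f} Set.univ
  rw [Set.univ_inter, pr_univ (by norm_num), ← Set.compl_eq_univ_sdiff] at h5
  linarith

theorem pr_miss (hm : 3 ≤ m) {nb : V → Lab m → V} (hI : Invol nb) {n : ℕ} (hG : GeoW nb n)
    (c : V → Rot m) (p : V × Lab m) (q K : ℕ) (hK : K * (2 * q + 1) ≤ n) :
    pr {f : V → Fin 2 | ∀ j < K * (2 * q + 1), ((stp nb c)^[j] p).1 ∉ hol nb q f} ≤
      (1 - (1 / 2 : ℝ) ^ ((8 * m + 2) ^ q)) ^ K := by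
  have key : ∀ k : ℕ, k * (2 * q + 1) ≤ n →
      pr {f : V → Fin 2 | ∀ i ∈ range k, f ∈
        {f : V → Fin 2 | ((stp nb c)^[i * (2 * q + 1)] p).1 ∉ hol nb q f}} ≤
      (1 - (1 / 2 : ℝ) ^ ((8 * m + 2) ^ q)) ^ k := by
    intro k
    induction k with
    | zero =>
      intro _
      rw [pow_zero, ← pr_univ (I := V) (M := 2) (by norm_num)]
      exact pr_mono (Set.subset_univ _)
    | succ k ih =>
      intro hk
      have hk' : k * (2 * q + 1) ≤ n := by
        rw [Nat.succ_mul] at hk
        omega
      have h1 : {f : V → Fin 2 | ∀ i ∈ range (k + 1), f ∈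
          {f : V → Fin 2 | ((stp nb c)^[i * (2 * q + 1)] p).1 ∉ hol nb q f}} =
          {f : V → Fin 2 | ∀ i ∈ range k, f ∈
            {f : V → Fin 2 | ((stp nb c)^[i * (2 * q + 1)] p).1 ∉ hol nb q f}} ∩
          {f : V → Fin 2 | ((stp nb c)^[k * (2 * q + 1)] p).1 ∉ hol nb q f} := by
        ext f
        constructor
        · intro h
          exact ⟨fun i hi => h i (mem_range.2 ((mem_range.1 hi).trans (Nat.lt_succ_self k))),
            h k (mem_range.2 (Nat.lt_succ_self k))⟩
        · rintro ⟨h2, h3⟩ i hi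
          rcases Nat.lt_succ_iff_lt_or_eq.1 (mem_range.1 hi) with h4 | h4
          · exact h2 i (mem_range.2 h4)
          · rw [h4]
            exact h3
      have hd : Disjoint ((range k).biUnion fun i =>
          ball nb q ((stp nb c)^[i * (2 * q + 1)] p).1)
          (ball nb q ((stp nb c)^[k * (2 * q + 1)] p).1) := by
        rw [disjoint_biUnion_left]
        intro i hi
        refine run_far hm hI hG c p ?_ hk'
        have h2 : (i + 1) * (2 * q + 1) ≤ k * (2 * q + 1) :=
          Nat.mul_le_mul_right _ (mem_range.1 hi)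
        rw [Nat.succ_mul] at h2
        omega
      rw [h1, pr_inter (by norm_num) (supp_biInter (range k) _ _ fun i _ => supp_hol nb q _)
        (supp_hol nb q _) hd, pow_succ]
      exact mul_le_mul (ih hk') (pr_hol nb q _) (pr_nonneg _)
        (pow_nonneg (sub_nonneg.2 (pow_le_one₀ (by norm_num) (by norm_num))) _)
  refine (pr_mono ?_).trans (key K hK)
  intro f hf i hi
  refine hf (i * (2 * q + 1)) ?_
  exact Nat.mul_lt_mul_of_pos_right (mem_range.1 hi) (Nat.succ_pos _)

theorem hol_sparse {nb : V → Lab m → V} (q : ℕ) (f : V → Fin 2) :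
    Sparse nb q (hol nb q f) := by
  intro v hv l hl hw
  by_contra hne
  rw [mem_hol] at hv hw
  exact hv.2 _ ((mem_ball nb q v _).2 ⟨l, hl, rfl⟩) hne hw.1

end URW
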